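import Pool.Agent.H71.ASF.Stmts

/-!
Module NLM of project ASF: Lemma N.
-/

namespace ASF

universe u

namespace NLM

variable {A : Type u} [NonUnitalNonAssocRing A] [Alt A] [NT A] {ι : Type} [Fintype ι]

theorem phi_psi (h1 : NFAStmt.{u}) (D : ι → A → A) (hD : ∀ k, IsDer (D k)) (p : ι → A)
    (h : ∀ x, O1F (fun k => D k x) p) :
    (∀ x y a, ∑ k, asc (D k x) y a * p k = 0) ∧ (∀ x y a, ∑ k, p k * asc (D k x) y a = 0) := by
  have f : ∀ x, O1Fact (fun k => D k x) p := fun x => h1 A ι _ p (h x)
  have e1 : ∀ x y a, ∑ k, asc (D k x) y a * p k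
      - ∑ k, asc (D k y) x a * p k - ∑ k, p k * asc (D k y) x a = 0 := by
    intro x y a
    have g := (h (x * y)).ra_s a
    have e : ∀ k, (D k (x * y) * a) * p k = ((D k x * y) * a) * p k + ((x * D k y) * a) * p k := by
      intro k; rw [(hD k).mul, add_mul, add_mul]
    simp only [e, Finset.sum_add_distrib] at g
    have g1 := (f x).rac_s y a
    have g2 := (f y).arc_s x a
    rw [g1, g2] at g
    linear_combination (norm := abel) g
  have e2 : ∀ x y a, ∑ k, p k * asc (D k x) y a + ∑ k, asc (D k y) x a * p k = 0 := by
    intro x y a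
    have g := (h (x * y)).s_ra a
    have e : ∀ k, p k * (D k (x * y) * a) = p k * ((D k x * y) * a) + p k * ((x * D k y) * a) := by
      intro k; rw [(hD k).mul, add_mul, mul_add]
    simp only [e, Finset.sum_add_distrib] at g
    have g1 := (f x).s_rac y a
    have g2 := (f y).s_arc x a
    rw [g1, g2] at g
    exact g
  have e3 : ∀ x y a, ∑ k, asc (D k x) y a * p k = 0 := by
    intro x y a
    have a1 := e1 x y a
    have a2 := e2 y x a
    have a3 := e1 y x a
    have a4 := e2 x y a
    apply c3
    linear_combination (norm := abel) (2 : ℤ) • a1 + (2 : ℤ) • a2 + a3 + a4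
  refine ⟨e3, fun x y a => ?_⟩
  have := e2 x y a
  rw [e3, add_zero] at this
  exact this

theorem words (h1 : NFAStmt.{u}) (h2 : NSLStmt.{u}) (D : ι → A → A) (hD : ∀ k, IsDer (D k))
    (p : ι → A) (h : ∀ x, O1F (fun k => D k x) p) (m : List (Bool × A)) :
    ∀ x, O1F (fun k => D k x) (fun k => wd m (p k)) := by
  induction m with
  | nil => exact h
  | cons c m ih =>
    intro x
    obtain ⟨g1, g2⟩ := phi_psi h1 D hD _ ih
    have g := h2 A ι (fun k => D k x) (fun k => wd m (p k)) (ih x) (g1 x) (g2 x) c.2
    obtain ⟨b, a⟩ := c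
    cases b with
    | true => exact g.2.1
    | false => exact g.1

end NLM

theorem nlm (h1 : NFAStmt.{u}) (h2 : NSLStmt.{u}) : NLMStmt.{u} := by
  intro A _ _ _ ι _ D p hD h x l
  induction l with
  | nil =>
    intro m
    have g := NLM.words h1 h2 D hD p h m x
    exact ⟨g.rs, g.sr⟩
  | cons c l ih =>
    intro m
    obtain ⟨b, a⟩ := c
    have i1 := ih m
    have i2 := ih ((false, a) :: m)
    have i3 := ih ((true, a) :: m)
    have i2a : ∑ k, wd l (D k x) * (wd m (p k) * a) = 0 := i2.1
    have i2b : ∑ k, (wd m (p k) * a) * wd l (D k x) = 0 := i2.2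
    have i3a : ∑ k, wd l (D k x) * (a * wd m (p k)) = 0 := i3.1
    have i3b : ∑ k, (a * wd m (p k)) * wd l (D k x) = 0 := i3.2
    cases b with
    | true =>
      constructor
      · change ∑ k, (a * wd l (D k x)) * wd m (p k) = 0
        have e : ∀ k, (a * wd l (D k x)) * wd m (p k) = (wd l (D k x) * wd m (p k)) * a
            - wd l (D k x) * (wd m (p k) * a) + a * (wd l (D k x) * wd m (p k)) := by
          intro k
          have e1 : asc a (wd l (D k x)) (wd m (p k)) = asc (wd l (D k x)) (wd m (p k)) a :=
            (asc_cyc _ _ _).symm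
          simp only [asc] at e1
          linear_combination (norm := abel) e1
        rw [Finset.sum_congr rfl (fun k _ => e k), Finset.sum_add_distrib,
          Finset.sum_sub_distrib, ← Finset.sum_mul, ← Finset.mul_sum, i1.1, i2a]
        simp
      · change ∑ k, wd m (p k) * (a * wd l (D k x)) = 0
        have e : ∀ k, wd m (p k) * (a * wd l (D k x)) = (wd m (p k) * a) * wd l (D k x)
            + (a * wd m (p k)) * wd l (D k x) - a * (wd m (p k) * wd l (D k x)) := by
          intro k
          have e1 : asc a (wd m (p k)) (wd l (D k x)) = - asc (wd m (p k)) a (wd l (D k x)) :=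
            asc_s12 _ _ _
          simp only [asc] at e1
          linear_combination (norm := abel) (-1 : ℤ) • e1
        rw [Finset.sum_congr rfl (fun k _ => e k), Finset.sum_sub_distrib,
          Finset.sum_add_distrib, ← Finset.mul_sum, i1.2, i2b, i3b]
        simp
    | false =>
      constructor
      · change ∑ k, (wd l (D k x) * a) * wd m (p k) = 0
        have e : ∀ k, (wd l (D k x) * a) * wd m (p k) = - ((wd l (D k x) * wd m (p k)) * a)
            + wd l (D k x) * (wd m (p k) * a) + wd l (D k x) * (a * wd m (p k)) := by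
          intro k
          have e1 : asc (wd l (D k x)) a (wd m (p k)) = - asc (wd l (D k x)) (wd m (p k)) a :=
            asc_s23 _ _ _
          simp only [asc] at e1
          linear_combination (norm := abel) e1
        rw [Finset.sum_congr rfl (fun k _ => e k), Finset.sum_add_distrib,
          Finset.sum_add_distrib, Finset.sum_neg_distrib, ← Finset.sum_mul, i1.1, i2a, i3a]
        simp
      · change ∑ k, wd m (p k) * (wd l (D k x) * a) = 0
        have e : ∀ k, wd m (p k) * (wd l (D k x) * a) = (wd m (p k) * wd l (D k x)) * a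
            - (a * wd m (p k)) * wd l (D k x) + a * (wd m (p k) * wd l (D k x)) := by
          intro k
          have e1 : asc a (wd m (p k)) (wd l (D k x)) = asc (wd m (p k)) (wd l (D k x)) a :=
            (asc_cyc _ _ _).symm
          simp only [asc] at e1
          linear_combination (norm := abel) e1
        rw [Finset.sum_congr rfl (fun k _ => e k), Finset.sum_add_distrib,
          Finset.sum_sub_distrib, ← Finset.sum_mul, ← Finset.mul_sum, i1.2, i3b]
        simp

end ASF
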