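import Pool.Agent.H71.ASF.Stmts

/-!
Module NSL of project ASF: stability of first level orthogonality.
-/

namespace ASF

universe u

namespace NSL

variable {A : Type u} [NonUnitalNonAssocRing A] [Alt A] {ι : Type} [Fintype ι]

omit [Alt A] in
theorem swap {r s : ι → A} (h : O1F r s) : O1F s r :=
  { rs := h.sr, sr := h.rs, ra_s := h.sa_r, ar_s := h.as_r, s_ra := h.r_sa, s_ar := h.r_as,
    r_sa := h.s_ra, r_as := h.s_ar, sa_r := h.ra_s, as_r := h.ar_s }

theorem half {r s : ι → A} (h : O1F r s) (f : O1Fact r s)
    (hphi : ∀ a c, ∑ k, asc (r k) a c * s k = 0) (hpsi : ∀ a c, ∑ k, s k * asc (r k) a c = 0)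
    (a : A) : O1F r (fun k => s k * a) ∧ O1F r (fun k => a * s k) := by
  have z1 : ∀ a c, ∑ k, r k * asc (s k) a c = 0 := fun a c => by rw [f.r_sac, hphi, neg_zero]
  have z2 : ∀ a c, ∑ k, asc (s k) a c * r k = 0 := fun a c => by rw [f.sac_r, hpsi, neg_zero]
  have z3 : ∀ a c, ∑ k, asc (a * r k) (s k) c = 0 := fun a c => by rw [f.ar_s_c, hphi]
  have z4 : ∀ a c, ∑ k, asc (r k * a) (s k) c = 0 := fun a c => by rw [f.ra_s_c, hpsi]
  have z5 : ∀ a c, ∑ k, asc (a * s k) (r k) c = 0 := fun a c => by rw [f.as_r_c, hpsi, neg_zero]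
  have z6 : ∀ a c, ∑ k, asc (s k * a) (r k) c = 0 := fun a c => by rw [f.sa_r_c, hphi, neg_zero]
  have z7 : ∀ a c, ∑ k, ((r k * a) * c) * s k = 0 := fun a c => by rw [f.rac_s, hphi]
  have z8 : ∀ a c, ∑ k, ((a * r k) * c) * s k = 0 := fun a c => by
    rw [f.arc_s, hphi, hpsi, neg_zero, sub_zero]
  constructor
  · refine ⟨h.r_sa a, h.sa_r a, ?_, ?_, ?_, ?_, ?_, ?_, ?_, ?_⟩
    · intro c
      have e : ∀ k, (r k * c) * (s k * a) = ((r k * c) * s k) * a - asc (r k * c) (s k) a :=
        fun k => by simp only [asc]; abel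
      rw [Finset.sum_congr rfl (fun k _ => e k), Finset.sum_sub_distrib, ← Finset.sum_mul,
        h.ra_s, zero_mul, z4, sub_zero]
    · intro c
      have e : ∀ k, (c * r k) * (s k * a) = ((c * r k) * s k) * a - asc (c * r k) (s k) a :=
        fun k => by simp only [asc]; abel
      rw [Finset.sum_congr rfl (fun k _ => e k), Finset.sum_sub_distrib, ← Finset.sum_mul,
        h.ar_s, zero_mul, z3, sub_zero]
    · intro c
      have e : ∀ k, (s k * a) * (r k * c) = ((s k * a) * r k) * c - asc (s k * a) (r k) c :=
        fun k => by simp only [asc]; abel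
      rw [Finset.sum_congr rfl (fun k _ => e k), Finset.sum_sub_distrib, ← Finset.sum_mul,
        h.sa_r, zero_mul, z6, sub_zero]
    · intro c
      have e : ∀ k, (s k * a) * (c * r k)
          = s k * ((a * c) * r k) - s k * asc (r k) a c + asc (c * r k) (s k) a := by
        intro k
        have e1 : asc (c * r k) (s k) a = asc (s k) a (c * r k) := (asc_cyc (c * r k) (s k) a).symm
        have e2 : asc (r k) a c = asc a c (r k) := (asc_cyc (r k) a c).symm
        rw [e1, e2]
        simp only [asc, mul_sub]; abel
      rw [Finset.sum_congr rfl (fun k _ => e k), Finset.sum_add_distrib, Finset.sum_sub_distrib,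
        h.s_ar, hpsi, z3, sub_zero, add_zero]
    · intro c
      have e : ∀ k, r k * ((s k * a) * c) = r k * (s k * (a * c)) + r k * asc (s k) a c :=
        fun k => by simp only [asc, mul_sub]; abel
      rw [Finset.sum_congr rfl (fun k _ => e k), Finset.sum_add_distrib, h.r_sa, z1, add_zero]
    · intro c
      have e : ∀ k, r k * (c * (s k * a))
          = (r k * (c * s k)) * a + asc (c * s k) (r k) a - r k * asc (s k) a c := by
        intro k
        have e1 : asc (c * s k) (r k) a = - asc (r k) (c * s k) a := asc_s12 _ _ _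
        have e2 : asc (s k) a c = asc c (s k) a := (asc_cyc' (s k) a c).symm
        rw [e1, e2]
        simp only [asc, mul_sub]; abel
      rw [Finset.sum_congr rfl (fun k _ => e k), Finset.sum_sub_distrib, Finset.sum_add_distrib,
        ← Finset.sum_mul, h.r_as, zero_mul, z5, z1, sub_zero, add_zero]
    · intro c
      have e : ∀ k, ((s k * a) * c) * r k = (s k * (a * c)) * r k + asc (s k) a c * r k :=
        fun k => by simp only [asc, sub_mul]; abel
      rw [Finset.sum_congr rfl (fun k _ => e k), Finset.sum_add_distrib, h.sa_r, z2, add_zero]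
    · intro c
      have e : ∀ k, (c * (s k * a)) * r k
          = c * (s k * (a * r k)) - asc (a * r k) (s k) c - asc (c * s k) (r k) a
            - asc (s k) a c * r k := by
        intro k
        have e1 : asc (a * r k) (s k) c = - asc c (s k) (a * r k) := asc_s13 _ _ _
        have e2 : asc (s k) a c = asc c (s k) a := (asc_cyc' (s k) a c).symm
        have e3 : asc (c * s k) (r k) a = - asc (c * s k) a (r k) := asc_s23 _ _ _
        rw [e1, e2, e3]
        simp only [asc, sub_mul]; abel
      rw [Finset.sum_congr rfl (fun k _ => e k), Finset.sum_sub_distrib, Finset.sum_sub_distrib,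
        Finset.sum_sub_distrib, ← Finset.mul_sum, h.s_ar, mul_zero, z3, z5, z2]
      simp
  · refine ⟨h.r_as a, h.as_r a, ?_, ?_, ?_, ?_, ?_, ?_, ?_, ?_⟩
    · intro c
      have e : ∀ k, (r k * c) * (a * s k) = ((r k * c) * a) * s k + asc (r k * c) (s k) a := by
        intro k
        have e1 : asc (r k * c) (s k) a = - asc (r k * c) a (s k) := asc_s23 _ _ _
        rw [e1]; simp only [asc]; abel
      rw [Finset.sum_congr rfl (fun k _ => e k), Finset.sum_add_distrib, z7, z4, add_zero]
    · intro c
      have e : ∀ k, (c * r k) * (a * s k) = ((c * r k) * a) * s k + asc (c * r k) (s k) a := by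
        intro k
        have e1 : asc (c * r k) (s k) a = - asc (c * r k) a (s k) := asc_s23 _ _ _
        rw [e1]; simp only [asc]; abel
      rw [Finset.sum_congr rfl (fun k _ => e k), Finset.sum_add_distrib, z8, z3, add_zero]
    · intro c
      have e : ∀ k, (a * s k) * (r k * c) = a * (s k * (r k * c)) - asc (r k * c) (s k) a := by
        intro k
        have e1 : asc (r k * c) (s k) a = - asc a (s k) (r k * c) := asc_s13 _ _ _
        rw [e1]; simp only [asc]; abel
      rw [Finset.sum_congr rfl (fun k _ => e k), Finset.sum_sub_distrib, ← Finset.mul_sum,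
        h.s_ra, mul_zero, z4, sub_zero]
    · intro c
      have e : ∀ k, (a * s k) * (c * r k) = a * (s k * (c * r k)) - asc (c * r k) (s k) a := by
        intro k
        have e1 : asc (c * r k) (s k) a = - asc a (s k) (c * r k) := asc_s13 _ _ _
        rw [e1]; simp only [asc]; abel
      rw [Finset.sum_congr rfl (fun k _ => e k), Finset.sum_sub_distrib, ← Finset.mul_sum,
        h.s_ar, mul_zero, z3, sub_zero]
    · intro c
      have e : ∀ k, r k * ((a * s k) * c) = (r k * (a * s k)) * c + asc (a * s k) (r k) c := by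
        intro k
        have e1 : asc (a * s k) (r k) c = - asc (r k) (a * s k) c := asc_s12 _ _ _
        rw [e1]; simp only [asc]; abel
      rw [Finset.sum_congr rfl (fun k _ => e k), Finset.sum_add_distrib, ← Finset.sum_mul,
        h.r_as, zero_mul, z5, add_zero]
    · intro c
      have e : ∀ k, r k * (c * (a * s k)) = r k * ((c * a) * s k) - r k * asc (s k) c a := by
        intro k
        have e1 : asc (s k) c a = asc c a (s k) := (asc_cyc (s k) c a).symm
        rw [e1]; simp only [asc, mul_sub]; abel
      rw [Finset.sum_congr rfl (fun k _ => e k), Finset.sum_sub_distrib, h.r_as, z1, sub_zero]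
    · intro c
      have e : ∀ k, ((a * s k) * c) * r k
          = a * ((s k * c) * r k) + asc (s k * c) (r k) a + asc (s k) c a * r k := by
        intro k
        have e1 : asc (s k * c) (r k) a = asc a (s k * c) (r k) :=
          (asc_cyc' (s k * c) (r k) a).symm
        have e2 : asc (s k) c a = asc a (s k) c := (asc_cyc' (s k) c a).symm
        rw [e1, e2]; simp only [asc, sub_mul]; abel
      rw [Finset.sum_congr rfl (fun k _ => e k), Finset.sum_add_distrib, Finset.sum_add_distrib,
        ← Finset.mul_sum, h.sa_r, mul_zero, z6, z2]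
      simp
    · intro c
      have e : ∀ k, (c * (a * s k)) * r k = ((c * a) * s k) * r k - asc (s k) c a * r k := by
        intro k
        have e1 : asc (s k) c a = asc c a (s k) := (asc_cyc (s k) c a).symm
        rw [e1]; simp only [asc, sub_mul]; abel
      rw [Finset.sum_congr rfl (fun k _ => e k), Finset.sum_sub_distrib, h.as_r, z2, sub_zero]

end NSL

theorem nsl (h1 : NFAStmt.{u}) : NSLStmt.{u} := by
  intro A _ _ ι _ r s h hphi hpsi a
  have f := h1 A ι r s h
  have f' := h1 A ι s r (NSL.swap h)
  obtain ⟨g1, g2⟩ := NSL.half h f hphi hpsi a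
  obtain ⟨g3, g4⟩ := NSL.half (NSL.swap h) f' (fun a c => by rw [f.sac_r, hpsi, neg_zero])
    (fun a c => by rw [f.r_sac, hphi, neg_zero]) a
  exact ⟨g1, g2, NSL.swap g3, NSL.swap g4⟩

end ASF
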